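import Pool.Agent.H484.AL.Stm

/-! Statement `S_RM` of project AL (helper484), by helper196. -/

namespace Pool.Agent.H484.AL

open Finset
open scoped Classical

theorem RM_ee_add (N : ℕ) (s t : ℤ) : ee N (s + t) = ee N s * ee N t := by
  unfold ee
  rw [← Complex.exp_add]
  congr 1
  push_cast
  ring

theorem RM_ee_zero (N : ℕ) : ee N 0 = 1 := by
  unfold ee
  simp

theorem RM_ee_norm (N : ℕ) (t : ℤ) : ‖ee N t‖ = 1 := by
  unfold ee
  rw [show (2 * (Real.pi : ℂ) * Complex.I * ((t : ℂ) / (N : ℂ))) =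
    ((2 * Real.pi * ((t : ℝ) / (N : ℝ)) : ℝ) : ℂ) * Complex.I by push_cast; ring]
  exact Complex.norm_exp_ofReal_mul_I _

theorem RM_ee_conj (N : ℕ) (t : ℤ) : (starRingEnd ℂ) (ee N t) = ee N (-t) := by
  unfold ee
  rw [← Complex.exp_conj]
  congr 1
  rw [map_mul, map_mul, map_mul, map_div₀, Complex.conj_ofReal, Complex.conj_I]
  rw [show (starRingEnd ℂ) (t : ℂ) = (t : ℂ) by
    rw [show (t : ℂ) = ((t : ℝ) : ℂ) by push_cast; rfl]; exact Complex.conj_ofReal _]
  rw [show (starRingEnd ℂ) (N : ℂ) = (N : ℂ) by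
    rw [show (N : ℂ) = ((N : ℝ) : ℂ) by push_cast; rfl]; exact Complex.conj_ofReal _]
  rw [show (starRingEnd ℂ) (2 : ℂ) = (2 : ℂ) by
    rw [show (2 : ℂ) = ((2 : ℝ) : ℂ) by push_cast; rfl]; exact Complex.conj_ofReal _]
  push_cast
  ring

theorem RM_ee_sum {ι : Type} (N : ℕ) (T : Finset ι) (f : ι → ℤ) :
    ee N (∑ k ∈ T, f k) = ∏ k ∈ T, ee N (f k) := by
  induction T using Finset.induction_on with
  | empty => simp [RM_ee_zero]
  | insert a T ha ih => rw [Finset.sum_insert ha, Finset.prod_insert ha, RM_ee_add, ih]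

theorem RM_chars {ι : Type} (hdec : DecidableEq ι) (N : ℕ) (J T : Finset ι) (hT : T ⊆ J)
    (L s : ι → ℤ) (hs1 : ∀ k ∈ T, s k = 1) (hs2 : ∀ k, k ∉ T → s k = -1) :
    (∏ k ∈ T, ee N (L k)) * (∏ k ∈ J \ T, (starRingEnd ℂ) (ee N (L k))) =
      ee N (∑ k ∈ J, s k * L k) := by
  have h1 : ∑ k ∈ J, s k * L k = (∑ k ∈ T, L k) + ∑ k ∈ J \ T, -(L k) := by
    rw [← Finset.sum_sdiff hT, add_comm]
    congr 1
    · apply Finset.sum_congr rfl
      intro k hk
      rw [hs1 k hk, one_mul]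
    · apply Finset.sum_congr rfl
      intro k hk
      rw [hs2 k (Finset.mem_sdiff.1 hk).2]
      ring
  rw [h1, RM_ee_add, RM_ee_sum, RM_ee_sum]
  congr 1
  apply Finset.prod_congr rfl
  intro k _
  exact RM_ee_conj N (L k)

theorem t_RM (hARC : S_ARC) (hFOUR : S_FOUR) (hSM : S_SM) (hLAC : S_LAC) (hRP : S_RP) :
    S_RM := by
  intro d R N a m K hR hN hK hm
  obtain ⟨hK1, hK2⟩ := hK
  have hNpos : (0 : ℝ) < (N : ℝ) := by exact_mod_cast hN
  -- the signed sums
  have key : ∀ J ⊆ K, J.Nonempty → ∀ T ⊆ J, ∃ n : Fin (d + 1) → ℤ,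
      (∀ (hdec : DecidableEq (Fin (d + 1) → ℤ)) (x : Fin (d + 1) → Fin N),
        (∏ k ∈ T, ee N (∑ i, k i * ((x i : ℕ) : ℤ))) *
          (∏ k ∈ J \ T, (starRingEnd ℂ) (ee N (∑ i, k i * ((x i : ℕ) : ℤ)))) =
          ee N (∑ i, n i * ((x i : ℕ) : ℤ))) ∧
      Dual (d + 1) N a n ∧
      (∀ i, n i ≠ 0 ∧ ¬ (N : ℤ) ∣ n i ∧ 2 * |n i| ≤ (N : ℤ) ∧ ∀ k ∈ J, |k i| ≤ 2 * |n i|) := by
    intro J hJ hJne T hT
    obtain ⟨s, hs1, hs2⟩ : ∃ s : (Fin (d + 1) → ℤ) → ℤ, (∀ k ∈ T, s k = 1) ∧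
        (∀ k, k ∉ T → s k = -1) :=
      ⟨fun k => if k ∈ T then (1 : ℤ) else -1, fun k hk => if_pos hk, fun k hk => if_neg hk⟩
    refine ⟨fun i => ∑ k ∈ J, s k * k i, ?_, ?_, ?_⟩
    · intro hdec x
      rw [RM_chars hdec N J T hT (fun k => ∑ i, k i * ((x i : ℕ) : ℤ)) s hs1 hs2]
      congr 1
      simp_rw [Finset.mul_sum, Finset.sum_mul]
      rw [Finset.sum_comm]
      apply Finset.sum_congr rfl
      intro i _
      apply Finset.sum_congr rfl
      intro k _
      ring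
    · unfold Dual
      have h1 : ∑ i, (a i : ℤ) * (∑ k ∈ J, s k * k i) =
          ∑ k ∈ J, s k * ∑ i, (a i : ℤ) * k i := by
        simp_rw [Finset.mul_sum]
        rw [Finset.sum_comm]
        apply Finset.sum_congr rfl
        intro k _
        apply Finset.sum_congr rfl
        intro i _
        ring
      rw [h1]
      apply Finset.dvd_sum
      intro k hk
      exact Dvd.dvd.mul_left (hK1 k (hJ hk)).1 _
    · intro i
      have h := hLAC (Fin (d + 1) → ℤ) J (fun k => k i) s R N hR hN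
        (by
          intro k hk
          refine ⟨((hK1 k (hJ hk)).2 i).1, ((hK1 k (hJ hk)).2 i).2, ?_⟩
          by_cases hkT : k ∈ T
          · exact Or.inl (hs1 k hkT)
          · exact Or.inr (hs2 k hkT))
        (by
          intro k hk k' hk' hne
          exact hK2 k (hJ hk) k' (hJ hk') hne i)
      obtain ⟨h1, h2⟩ := h
      obtain ⟨k0, hk0⟩ := hJne
      have h3 : 0 < |k0 i| := abs_pos.2 ((hK1 k0 (hJ hk0)).2 i).1
      have h4 : |k0 i| ≤ 2 * |∑ k ∈ J, s k * k i| := h1 k0 hk0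
      have h5 : 0 < |∑ k ∈ J, s k * k i| := by linarith
      have h7 : (∑ k ∈ J, s k * k i) ≠ 0 := abs_pos.1 h5
      have h8 : 2 * |∑ k ∈ J, s k * k i| < (N : ℤ) := h2
      refine ⟨h7, ?_, le_of_lt h8, h1⟩
      intro hdvd
      apply h7
      have h9 : |∑ k ∈ J, s k * k i| < (N : ℤ) := by linarith
      exact Int.eq_zero_of_abs_lt_dvd hdvd h9
  have hmain := hRP (Fin (d + 1) → Fin N) (Fin (d + 1) → ℤ) K
    (fun k x => ee N (∑ i, k i * ((x i : ℕ) : ℤ)))
    (fun x => GG (d + 1) N a (fun i => (x i : ℕ)) m)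
    (2 ^ (d + 1) * ((N : ℝ) * Disc (d + 1) N a))
    (fun J => (N : ℝ) ^ (d + 2) * ∏ i, (1 / ((J.sup (fun k => (k i).natAbs) : ℕ) : ℝ)))
    (fun k _ x => RM_ee_norm N _)
    (fun x => hARC (d + 1) N a (fun i => (x i : ℕ)) m hN (fun i => (x i).2) hm)
    (hFOUR (d + 1) N a m (fun _ => 0) hN hm).2.2
    (by
      intro J hJ hJne T hT
      obtain ⟨n, hn1, hn2, hn3⟩ := key J hJ hJne T hT
      refine (Finset.sum_congr rfl (fun x _ => hn1 _ x)).trans ?_
      exact (hFOUR (d + 1) N a m n hN hm).1 ⟨0, (hn3 0).2.1⟩)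
    (by
      intro J hJ hJc T hT
      have hJne : J.Nonempty := by
        rw [← Finset.card_pos]; omega
      obtain ⟨n, hn1, hn2, hn3⟩ := key J hJ hJne T hT
      rw [Finset.sum_congr rfl (fun x _ => by rw [hn1 _ x]),
        (hFOUR (d + 1) N a m n hN hm).2.1 ⟨0, (hn3 0).2.1⟩ hn2]
      rw [norm_mul, norm_prod]
      have hNn : ‖(N : ℂ)‖ = (N : ℝ) := by simp
      rw [hNn]
      have hb : ∀ i, ‖SS N (m i) (-(n i))‖ ≤
          (N : ℝ) * (1 / ((J.sup (fun k => (k i).natAbs) : ℕ) : ℝ)) := by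
        intro i
        obtain ⟨h1, h2, h3, h4⟩ := hn3 i
        have h5 := (hSM N (-(n i)) hN (neg_ne_zero.2 h1) (by rw [abs_neg]; exact h3)).1 (m i)
        refine le_trans h5 ?_
        have hsup : J.sup (fun k => (k i).natAbs) ≤ 2 * (n i).natAbs := by
          apply Finset.sup_le
          intro k hk
          have h9 := h4 k hk
          rw [Int.abs_eq_natAbs, Int.abs_eq_natAbs] at h9
          omega
        obtain ⟨k0, hk0⟩ := hJne
        have hpos : 0 < J.sup (fun k => (k i).natAbs) := by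
          have h6 : (k0 i).natAbs ≤ J.sup (fun k => (k i).natAbs) :=
            Finset.le_sup (f := fun k : Fin (d + 1) → ℤ => (k i).natAbs) hk0
          have h7 : k0 i ≠ 0 := ((hK1 k0 (hJ hk0)).2 i).1
          omega
        rw [div_eq_mul_one_div]
        apply mul_le_mul_of_nonneg_left _ hNpos.le
        apply one_div_le_one_div_of_le
        · exact_mod_cast hpos
        · have h8 : ((J.sup (fun k => (k i).natAbs) : ℕ) : ℝ) ≤ ((2 * (n i).natAbs : ℕ) : ℝ) := by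
            exact_mod_cast hsup
          refine le_trans h8 ?_
          rw [Nat.cast_mul, Nat.cast_natAbs]
          push_cast
          rw [abs_neg]
      calc (N : ℝ) * ∏ i, ‖SS N (m i) (-(n i))‖
          ≤ (N : ℝ) * ∏ i, ((N : ℝ) * (1 / ((J.sup (fun k => (k i).natAbs) : ℕ) : ℝ))) := by
            apply mul_le_mul_of_nonneg_left _ hNpos.le
            apply Finset.prod_le_prod
            · intro i _; exact norm_nonneg _
            · intro i _; exact hb i
        _ = (N : ℝ) ^ (d + 2) * ∏ i, (1 / ((J.sup (fun k => (k i).natAbs) : ℕ) : ℝ)) := by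
            rw [Finset.prod_mul_distrib, Finset.prod_const, Finset.card_univ, Fintype.card_fin]
            ring)
  have hcard : (Fintype.card (Fin (d + 1) → Fin N) : ℝ) = (N : ℝ) ^ (d + 1) := by
    rw [Fintype.card_fun, Fintype.card_fin, Fintype.card_fin]
    push_cast
    rfl
  rw [hcard] at hmain
  refine le_trans (le_of_eq ?_) hmain
  apply Finset.sum_congr rfl
  intro k hk
  have hkd := (hK1 k hk).1
  have hk0 := (hK1 k hk).2
  have hnd : ¬ (N : ℤ) ∣ k 0 := by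
    intro hdvd
    apply (hk0 0).1
    apply Int.eq_zero_of_abs_lt_dvd hdvd
    have h1 := (hk0 0).2
    have h2 : 0 < |k 0| := abs_pos.2 (hk0 0).1
    omega
  rw [(hFOUR (d + 1) N a m k hN hm).2.1 ⟨0, hnd⟩ hkd]
  rw [norm_mul, norm_prod]
  have hNn : ‖(N : ℂ)‖ = (N : ℝ) := by simp
  rw [hNn]

end Pool.Agent.H484.AL
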